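import Mathlib

/-! # The Lenstra sequence is 2-adically integral -/

set_option autoImplicit false

namespace Pool.Agent.Results.MP_d9e015_nt.TwoAdicIntegrality

open Finset

/-! ### The predicate `q ∈ 2^m ℤ_(2)` -/

/-- `q ∈ 2^m ℤ_(2)` -/
def D (m : ℕ) (q : ℚ) : Prop := ∃ a b : ℤ, Odd b ∧ q * b = 2 ^ m * a

theorem D.int (z : ℤ) : D 0 (z : ℚ) := ⟨z, 1, odd_one, by push_cast; ring⟩

theorem D.of_dvd {m : ℕ} {z : ℤ} (h : (2 : ℤ) ^ m ∣ z) : D m (z : ℚ) := by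
  obtain ⟨w, rfl⟩ := h
  exact ⟨w, 1, odd_one, by push_cast; ring⟩

theorem D.zero (m : ℕ) : D m 0 := ⟨0, 1, odd_one, by simp⟩

theorem D.pow (m : ℕ) : D m ((2 : ℚ) ^ m) := ⟨1, 1, odd_one, by simp⟩

theorem D.add {m : ℕ} {p q : ℚ} (hp : D m p) (hq : D m q) : D m (p + q) := by
  obtain ⟨a, b, hb, h1⟩ := hp
  obtain ⟨a', b', hb', h2⟩ := hq
  refine ⟨a * b' + a' * b, b * b', hb.mul hb', ?_⟩
  push_cast
  linear_combination (b' : ℚ) * h1 + (b : ℚ) * h2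

theorem D.neg {m : ℕ} {p : ℚ} (hp : D m p) : D m (-p) := by
  obtain ⟨a, b, hb, h1⟩ := hp
  exact ⟨-a, b, hb, by push_cast; linear_combination -h1⟩

theorem D.sub {m : ℕ} {p q : ℚ} (hp : D m p) (hq : D m q) : D m (p - q) := by
  rw [sub_eq_add_neg]; exact hp.add hq.neg

theorem D.mul {m n : ℕ} {p q : ℚ} (hp : D m p) (hq : D n q) : D (m + n) (p * q) := by
  obtain ⟨a, b, hb, h1⟩ := hp
  obtain ⟨a', b', hb', h2⟩ := hq
  refine ⟨a * a', b * b', hb.mul hb', ?_⟩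
  push_cast
  rw [pow_add]
  linear_combination (q * b') * h1 + (2 ^ m * a : ℚ) * h2

theorem D.mono {m n : ℕ} (h : n ≤ m) {p : ℚ} (hp : D m p) : D n p := by
  obtain ⟨a, b, hb, h1⟩ := hp
  refine ⟨2 ^ (m - n) * a, b, hb, ?_⟩
  rw [h1]
  push_cast
  rw [← mul_assoc, ← pow_add, Nat.add_sub_cancel' h]

theorem D.div_odd {m : ℕ} {p : ℚ} (hp : D m p) {s : ℤ} (hs : Odd s) : D m (p / s) := by
  obtain ⟨a, b, hb, h1⟩ := hp
  have hs0 : (s : ℚ) ≠ 0 := by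
    have : s ≠ 0 := by rintro rfl; simp at hs
    exact_mod_cast this
  refine ⟨a, b * s, hb.mul hs, ?_⟩
  push_cast
  rw [← h1]
  field_simp

theorem D.dvd {m : ℕ} {z : ℤ} (h : D m (z : ℚ)) : (2 : ℤ) ^ m ∣ z := by
  obtain ⟨a, b, hb, h1⟩ := h
  have h2 : z * b = 2 ^ m * a := by exact_mod_cast h1
  have h3 : IsCoprime ((2 : ℤ) ^ m) b := by
    apply IsCoprime.pow_left
    obtain ⟨k, hk⟩ := hb
    exact ⟨-k, 1, by rw [hk]; ring⟩
  exact h3.dvd_of_dvd_mul_right ⟨a, h2⟩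

theorem D.approx {q : ℚ} (h : D 0 q) (m : ℕ) : ∃ z : ℤ, D m (q - z) := by
  obtain ⟨a, b, hb, h1⟩ := h
  have h3 : IsCoprime b ((2 : ℤ) ^ m) := by
    apply IsCoprime.pow_right
    obtain ⟨k, hk⟩ := hb
    exact ⟨1, -k, by rw [hk]; ring⟩
  obtain ⟨u, v, huv⟩ := h3
  refine ⟨a * u, a * v, b, hb, ?_⟩
  have h4 : (u : ℚ) * b + v * 2 ^ m = 1 := by exact_mod_cast huv
  push_cast
  linear_combination h1 - (a : ℚ) * h4

theorem D.odd_den {q : ℚ} (h : D 0 q) : Odd q.den := by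
  obtain ⟨a, b, hb, h1⟩ := h
  have hb0 : (b : ℚ) ≠ 0 := by
    have : b ≠ 0 := by rintro rfl; simp at hb
    exact_mod_cast this
  have h2 : q = (a : ℚ) / (b : ℚ) := by
    rw [eq_div_iff hb0, h1]; simp
  have h3 : (q.den : ℤ) ∣ b := by
    rw [h2, ← Rat.divInt_eq_div]
    exact Rat.den_dvd a b
  have h4 : Odd (q.den : ℤ) := by
    obtain ⟨c, hc⟩ := h3
    rw [hc] at hb
    exact (Int.odd_mul.1 hb).1
  exact_mod_cast h4

/-- `2^j / n ∈ ℤ_(2)` if `2^(j+1)` does not divide `n` -/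
theorem D.inv (n j : ℕ) (hn : n ≠ 0) (h : ¬ 2 ^ (j + 1) ∣ n) : D 0 ((2 : ℚ) ^ j / n) := by
  obtain ⟨v, s, hs, rfl⟩ := Nat.exists_eq_two_pow_mul_odd hn
  have hv : v ≤ j := by
    by_contra hcon
    apply h
    exact (pow_dvd_pow 2 (by omega)).trans (Dvd.intro _ rfl)
  have hs0 : (s : ℚ) ≠ 0 := by
    have : s ≠ 0 := by rintro rfl; simp at hs
    exact_mod_cast this
  refine ⟨2 ^ (j - v), s, by exact_mod_cast hs, ?_⟩
  push_cast
  have h1 : (2 : ℚ) ^ j = 2 ^ v * 2 ^ (j - v) := by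
    rw [← pow_add, Nat.add_sub_cancel' hv]
  rw [h1]
  field_simp

/-! ### The sequence -/

section

variable (x : ℕ → ℚ)

/-- `n x_n` for `n ≥ 1` -/
def Y (n : ℕ) : ℚ := 1 + ∑ i ∈ range n, x i ^ 2

theorem Y_succ (n : ℕ) : Y x (n + 1) = Y x n + x n ^ 2 := by
  unfold Y
  rw [Finset.sum_range_succ]; ring

variable (h0 : x 0 = 1) (hx : ∀ n : ℕ, 1 ≤ n → x n = (1 + ∑ i ∈ range n, x i ^ 2) / n)

include hx in
theorem x_eq (n : ℕ) (hn : 1 ≤ n) : x n = Y x n / n := hx n hn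

/-! ### The terms up to `256`, modulo `2^20` -/

include hx in
theorem step20 (n v : ℕ) (s : ℤ) (hn : 1 ≤ n) (hs : Odd s) (hns : (n : ℤ) = 2 ^ v * s) (hv : v ≤ 10)
    (Y0 X : ℤ) (h1 : D 20 (Y x n - Y0)) (h2 : (2 : ℤ) ^ 20 ∣ n * X - Y0) (h3 : (2 : ℤ) ^ v ∣ 2 * X) :
    D 0 (x n) ∧ D 20 (Y x (n + 1) - (Y0 + X ^ 2 : ℤ)) := by
  have hn0 : (n : ℚ) ≠ 0 := by exact_mod_cast (by omega : n ≠ 0)
  have hns' : (n : ℚ) = 2 ^ v * s := by exact_mod_cast hns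
  have hd : D (20 - v) (x n - X) := by
    have h4 : D 20 (Y x n - (n : ℚ) * X) := by
      have h5 : Y x n - (n : ℚ) * X = (Y x n - Y0) - ((n * X - Y0 : ℤ) : ℚ) := by push_cast; ring
      rw [h5]
      exact h1.sub (D.of_dvd h2)
    obtain ⟨a, b, hb, h5⟩ := h4
    refine ⟨a, b * s, hb.mul hs, ?_⟩
    rw [x_eq x hx n hn]
    have h6 : (2 : ℚ) ^ 20 = 2 ^ v * 2 ^ (20 - v) := by
      rw [← pow_add, Nat.add_sub_cancel' (by omega)]
    rw [h6] at h5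
    have h2v : (2 : ℚ) ^ v ≠ 0 := by positivity
    have h7 : (2 : ℚ) ^ v * ((Y x n / n - X) * ((b * s : ℤ) : ℚ)) = 2 ^ v * (2 ^ (20 - v) * a) := by
      push_cast
      rw [← mul_assoc ((2 : ℚ) ^ v) (2 ^ (20 - v)) a, ← h5]
      have h8 : (2 : ℚ) ^ v * ((Y x n / n - X) * (b * s)) = (2 ^ v * s) * (Y x n / n - X) * b := by
        ring
      rw [h8, ← hns']
      field_simp
    exact mul_left_cancel₀ h2v h7
  have hx0 : D 0 (x n) := by
    have h4 : x n = (x n - X) + X := by ring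
    rw [h4]
    exact (hd.mono (Nat.zero_le _)).add (D.int X)
  refine ⟨hx0, ?_⟩
  rw [Y_succ]
  have h4 : Y x n + x n ^ 2 - ((Y0 + X ^ 2 : ℤ) : ℚ) =
      (Y x n - Y0) + (x n - X) * (((2 * X : ℤ) : ℚ) + (x n - X)) := by push_cast; ring
  rw [h4]
  apply h1.add
  have h5 : D v (((2 * X : ℤ) : ℚ) + (x n - X)) := (D.of_dvd h3).add (hd.mono (by omega))
  have h6 := hd.mul h5
  rwa [Nat.sub_add_cancel (by omega)] at h6

/-- residues of the terms `x_1, …, x_255` modulo powers of two -/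
def tab : List ℕ :=
  [
   2, 3, 5, 10, 28, 154, 3520, 110088, 322688, 56128, 471424, 7520, 243328, 498624, 893824,
   36168, 683200, 72032, 964672, 117104, 214720, 293024, 435264, 29544, 674816, 3584,
   984064, 199936, 285696, 485888, 5120, 4960, 1036288, 419840, 258048, 250880, 102400,
   292864, 634880, 94720, 610304, 346112, 94208, 187392, 462848, 88064, 733184, 40704,
   512000, 501760, 389120, 99328, 888832, 309248, 1028096, 54784, 610304, 165888, 749568,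
   3072, 724992, 104448, 602112, 2880, 614400, 176128, 204800, 186368, 122880, 495616,
   237568, 117760, 417792, 454656, 532480, 83968, 450560, 512000, 40960, 40448, 483328,
   208896, 598016, 129024, 1040384, 4096, 630784, 99328, 286720, 225280, 925696, 26624,
   319488, 282624, 434176, 14592, 155648, 143360, 925696, 88064, 450560, 4096, 696320,
   64512, 483328, 290816, 729088, 149504, 253952, 413696, 1024000, 59904, 24576, 438272,
   270336, 96256, 319488, 299008, 40960, 128000, 352256, 323584, 73728, 157696, 122880,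
   446464, 368640, 5312, 61440, 423936, 20480, 179200, 12288, 403456, 757760, 81408, 618496,
   6144, 315392, 103424, 831488, 116736, 790528, 5888, 454656, 473088, 20480, 183296,
   667648, 124928, 1019904, 68096, 487424, 55296, 839680, 74752, 962560, 100352, 528384,
   27008, 929792, 432128, 397312, 11264, 290816, 428032, 544768, 60928, 831488, 505856,
   36864, 140288, 454656, 108544, 970752, 59648, 12288, 153600, 135168, 64512, 684032,
   346112, 544768, 51712, 438272, 227328, 299008, 29696, 323584, 288768, 446464, 7232,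
   212992, 368640, 770048, 118784, 671744, 122880, 180224, 43008, 606208, 73728, 114688,
   258048, 16384, 352256, 573440, 1024, 999424, 40960, 507904, 233472, 409600, 319488,
   966656, 112640, 344064, 270336, 901120, 110592, 802816, 24576, 311296, 5632, 999424,
   368640, 1032192, 20480, 409600, 385024, 442368, 2048, 344064, 73728, 376832, 28672,
   802816, 90112, 835584, 19456, 737280, 40960, 770048, 135168, 147456, 57344, 180224, 6144,
   81920, 270336, 114688, 143360, 540672, 286720, 573440]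

/-- the check -/
def chk : ℕ → ℕ → List ℕ → Option ℕ
  | _, Y0, [] => some Y0
  | n, Y0, X :: l =>
    if (n * X) % 2 ^ 20 = Y0 ∧ (2 * X) % (Nat.gcd n (2 ^ 10)) = 0 then
      chk (n + 1) ((Y0 + X ^ 2) % 2 ^ 20) l
    else none

theorem chk_tab : chk 1 2 tab = some 475136 := by decide +kernel

include hx in
theorem chk_sound : ∀ (l : List ℕ) (n Y0 Yf : ℕ), 1 ≤ n → n + l.length ≤ 1024 →
    D 20 (Y x n - (Y0 : ℤ)) → chk n Y0 l = some Yf →
    (∀ i, n ≤ i → i < n + l.length → D 0 (x i)) ∧ D 20 (Y x (n + l.length) - (Yf : ℤ)) := by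
  intro l
  induction l with
  | nil =>
    intro n Y0 Yf _ _ h1 h2
    unfold chk at h2
    have : Y0 = Yf := by simpa using h2
    subst this
    refine ⟨fun i hi hi' => ?_, by simpa using h1⟩
    simp at hi'
    omega
  | cons X l ih =>
    intro n Y0 Yf hn hlen h1 h2
    unfold chk at h2
    split_ifs at h2 with h3
    obtain ⟨h3, h4⟩ := h3
    rw [List.length_cons] at hlen
    -- the two-part of `n`
    obtain ⟨v, s, hs, hns⟩ := Nat.exists_eq_two_pow_mul_odd (show n ≠ 0 by omega)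
    have hv : v ≤ 10 := by
      by_contra hcon
      have h5 : 2 ^ 11 ∣ n := by
        rw [hns]; exact (pow_dvd_pow 2 (by omega)).trans (Dvd.intro _ rfl)
      have := Nat.le_of_dvd (by omega) h5
      omega
    have hgcd : Nat.gcd n (2 ^ 10) = 2 ^ v := by
      rw [hns]
      have h5 : (2 : ℕ) ^ 10 = 2 ^ v * 2 ^ (10 - v) := by
        rw [← pow_add, Nat.add_sub_cancel' hv]
      rw [h5, Nat.gcd_mul_left]
      have h6 : Nat.Coprime s (2 ^ (10 - v)) :=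
        Nat.Coprime.pow_right _ (Nat.coprime_two_right.2 hs)
      rw [h6, mul_one]
    rw [hgcd] at h4
    have h5 := step20 x hx n v (s : ℤ) hn (by exact_mod_cast hs) (by exact_mod_cast hns) hv
      (Y0 : ℤ) (X : ℤ) h1 (by
        have h6 : ((n * X : ℕ) : ℤ) % ((2 ^ 20 : ℕ) : ℤ) = Y0 := by exact_mod_cast h3
        have h7 := Int.emod_add_mul_ediv ((n * X : ℕ) : ℤ) ((2 ^ 20 : ℕ) : ℤ)
        rw [h6] at h7
        refine ⟨((n * X : ℕ) : ℤ) / ((2 ^ 20 : ℕ) : ℤ), ?_⟩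
        push_cast at h7 ⊢
        linarith) (by
        have h6 : 2 ^ v ∣ 2 * X := Nat.dvd_of_mod_eq_zero h4
        exact_mod_cast h6)
    have h6 : D 20 (Y x (n + 1) - (((Y0 + X ^ 2) % 2 ^ 20 : ℕ) : ℤ)) := by
      have h7 : Y x (n + 1) - (((((Y0 + X ^ 2) % 2 ^ 20 : ℕ) : ℤ)) : ℚ) =
          (Y x (n + 1) - (((Y0 : ℤ) + (X : ℤ) ^ 2 : ℤ) : ℚ)) +
          ((((Y0 : ℤ) + (X : ℤ) ^ 2) - (((Y0 + X ^ 2) % 2 ^ 20 : ℕ) : ℤ) : ℤ) : ℚ) := by
        push_cast; ring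
      rw [h7]
      apply h5.2.add
      apply D.of_dvd
      have h8 := Nat.mod_add_div (Y0 + X ^ 2) (2 ^ 20)
      refine ⟨((Y0 + X ^ 2) / 2 ^ 20 : ℕ), ?_⟩
      have h9 : (((Y0 + X ^ 2) % 2 ^ 20 + 2 ^ 20 * ((Y0 + X ^ 2) / 2 ^ 20) : ℕ) : ℤ) =
          ((Y0 + X ^ 2 : ℕ) : ℤ) := by rw [h8]
      rw [Nat.cast_add, Nat.cast_mul] at h9
      push_cast at h9 ⊢
      linarith
    have h7 := ih (n + 1) ((Y0 + X ^ 2) % 2 ^ 20) Yf (by omega) (by omega) h6 h2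
    refine ⟨fun i hi hi' => ?_, ?_⟩
    · rw [List.length_cons] at hi'
      rcases Nat.eq_or_lt_of_le hi with h8 | h8
      · rw [← h8]; exact h5.1
      · exact h7.1 i (by omega) (by omega)
    · rw [List.length_cons, show n + (l.length + 1) = n + 1 + l.length by ring]
      exact h7.2

/-! ### One segment -/

include hx in
/-- From `2^(κ+4) t` to `2^(κ+4) (t+1)`. -/
theorem seg (κ t : ℕ) (ht : 16 ≤ t) (ht' : t < 32) (c : ℚ)
    (hc : Y x (2 ^ (κ + 4) * t) = 2 ^ (2 * κ + 12) * c) (hc0 : D 0 c)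
    (hc1 : D 0 (16 * c ^ 2 / (t : ℚ) ^ 2)) :
    (∀ n, 2 ^ (κ + 4) * t ≤ n → n < 2 ^ (κ + 4) * (t + 1) → D 0 (x n)) ∧
    ∃ c' : ℚ, Y x (2 ^ (κ + 4) * (t + 1)) = 2 ^ (2 * κ + 12) * c' ∧
      D 6 (c' - (c + 16 * c ^ 2 / (t : ℚ) ^ 2)) := by
  set N := 2 ^ (κ + 4) * t with hN
  have hNpos : 0 < N := by positivity
  have ht0 : (t : ℚ) ≠ 0 := by exact_mod_cast (by omega : t ≠ 0)
  set a : ℚ := c + 16 * c ^ 2 / (t : ℚ) ^ 2 with ha
  have ha0 : D 0 a := hc0.add hc1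
  -- the first term
  have hx0 : x N = 2 ^ (κ + 4) * (2 ^ 4 / (t : ℚ) * c) := by
    rw [x_eq x hx N hNpos, hc, hN]
    push_cast
    have h1 : (2 : ℚ) ^ (2 * κ + 12) = 2 ^ (κ + 4) * (2 ^ (κ + 4) * 2 ^ 4) := by
      rw [← pow_add, ← pow_add]; congr 1; ring
    rw [h1]
    field_simp
  have hx0D : D 0 (x N) := by
    rw [hx0]
    have h1 : D 0 ((2 : ℚ) ^ 4 / (t : ℚ)) := by
      apply D.inv t 4 (by omega)
      intro h
      have := Nat.le_of_dvd (by omega) h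
      omega
    have h2 := ((D.pow (κ + 4)).mul (h1.mul hc0))
    exact h2.mono (Nat.zero_le _)
  have hY1 : Y x (N + 1) = 2 ^ (2 * κ + 12) * a := by
    rw [Y_succ, hc, hx0, ha]
    have h1 : (2 : ℚ) ^ (2 * κ + 12) = (2 ^ (κ + 4)) ^ 2 * 2 ^ 4 := by
      rw [← pow_mul, ← pow_add]; congr 1; ring
    rw [h1]
    field_simp
    ring
  -- induction along the segment
  have key : ∀ i, i + 1 ≤ 2 ^ (κ + 4) → (∀ j, 1 ≤ j → j ≤ i → D 0 (x (N + j))) ∧
      ∃ c' : ℚ, Y x (N + (i + 1)) = 2 ^ (2 * κ + 12) * c' ∧ D 6 (c' - a) := by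
    intro i
    induction i with
    | zero =>
      intro _
      refine ⟨fun j h1 h2 => by omega, a, hY1, ?_⟩
      rw [sub_self]
      exact D.zero 6
    | succ i ih =>
      intro hi
      obtain ⟨h1, c', h2, h3⟩ := ih (by omega)
      have hc'0 : D 0 c' := by
        have : c' = (c' - a) + a := by ring
        rw [this]
        exact (h3.mono (Nat.zero_le _)).add ha0
      set n := N + (i + 1) with hn
      have hnpos : 0 < n := by omega
      have hn0 : (n : ℚ) ≠ 0 := by exact_mod_cast hnpos.ne'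
      have hndvd : ¬ 2 ^ ((κ + 3) + 1) ∣ n := by
        intro h
        have h4 : 2 ^ (κ + 4) ∣ N := Dvd.intro _ rfl
        have h5 : 2 ^ (κ + 4) ∣ i + 1 := (Nat.dvd_add_right h4).1 h
        have := Nat.le_of_dvd (by omega) h5
        omega
      have hinv := D.inv n (κ + 3) hnpos.ne' hndvd
      set w : ℚ := (2 : ℚ) ^ (κ + 3) / n * c' with hw
      have hw0 : D 0 w := hinv.mul hc'0
      have hxn : x n = 2 ^ (κ + 9) * w := by
        rw [x_eq x hx n hnpos, h2, hw]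
        have h4 : (2 : ℚ) ^ (2 * κ + 12) = 2 ^ (κ + 9) * 2 ^ (κ + 3) := by
          rw [← pow_add]; congr 1; ring
        rw [h4]
        ring
      have hxD : D 0 (x n) := by
        rw [hxn]
        exact ((D.pow _).mul hw0).mono (Nat.zero_le _)
      refine ⟨fun j hj1 hj2 => ?_, c' + 2 ^ 6 * w ^ 2, ?_, ?_⟩
      · rcases Nat.lt_or_ge j (i + 1) with h | h
        · exact h1 j hj1 (by omega)
        · have : j = i + 1 := by omega
          rw [this]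
          exact hxD
      · rw [← add_assoc N (i + 1) 1, Y_succ, ← hn, h2, hxn]
        have h4 : (2 : ℚ) ^ (2 * κ + 12) * 2 ^ 6 = (2 ^ (κ + 9)) ^ 2 := by
          rw [← pow_mul, ← pow_add]; congr 1; ring
        linear_combination -(w ^ 2) * h4
      · have h4 : c' + 2 ^ 6 * w ^ 2 - a = (c' - a) + 2 ^ 6 * (w * w) := by ring
        rw [h4]
        exact h3.add ((D.pow 6).mul (hw0.mul hw0))
  obtain ⟨p, hp⟩ : ∃ p, 2 ^ (κ + 4) = p + 1 :=
    ⟨2 ^ (κ + 4) - 1, by have : 0 < 2 ^ (κ + 4) := by positivity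
                         omega⟩
  have hk := key p (by omega)
  have hNN : 2 ^ (κ + 4) * (t + 1) = N + (p + 1) := by rw [hN, ← hp]; ring
  refine ⟨fun n h1 h2 => ?_, ?_⟩
  · rw [hNN] at h2
    rcases Nat.eq_or_lt_of_le h1 with h | h
    · rw [← h]; exact hx0D
    · have := hk.1 (n - N) (by omega) (by omega)
      rwa [Nat.add_sub_cancel' h1] at this
  · rw [hNN]
    exact hk.2

/-! ### Congruences modulo 32 along one doubling -/

theorem D_sq_odd {m : ℕ} {A : ℚ} {R s : ℤ} (hs : Odd s) (h : D m (A - R * s ^ 2)) :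
    D m (A / (s : ℚ) ^ 2 - R) := by
  have hs0 : (s : ℚ) ≠ 0 := by
    have : s ≠ 0 := by rintro rfl; simp at hs
    exact_mod_cast this
  have h1 : A / (s : ℚ) ^ 2 - R = (A - R * s ^ 2) / ((s ^ 2 : ℤ) : ℚ) := by
    push_cast
    field_simp
  rw [h1]
  exact h.div_odd hs.pow

theorem D_sq {m : ℕ} {c : ℚ} {B : ℤ} (h : D m (c - B)) : D m (c ^ 2 - (B : ℚ) ^ 2) := by
  have h1 : c ^ 2 - (B : ℚ) ^ 2 = (c - B) * ((c - B) + ((2 * B : ℤ) : ℚ)) := by push_cast; ring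
  rw [h1]
  have h2 : D 0 ((c - B) + ((2 * B : ℤ) : ℚ)) := (h.mono (Nat.zero_le _)).add (D.int _)
  exact h.mul h2

theorem D_of_sub {m : ℕ} {c : ℚ} {B : ℤ} (h : D m (c - B)) : D 0 c := by
  have h1 : c = (c - B) + B := by ring
  rw [h1]
  exact (h.mono (Nat.zero_le _)).add (D.int B)

theorem L_odd {c : ℚ} {B s : ℤ} (hs : Odd s) (h : D 5 (c - B)) :
    D 0 (16 * c ^ 2 / (s : ℚ) ^ 2) ∧ D 5 (c + 16 * c ^ 2 / (s : ℚ) ^ 2 - ((17 * B : ℤ) : ℚ)) := by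
  have h1 : D 1 (c ^ 2 / (s : ℚ) ^ 2 - B) := by
    apply D_sq_odd hs
    have h2 : c ^ 2 - (B : ℚ) * (s : ℚ) ^ 2 = (c ^ 2 - (B : ℚ) ^ 2) +
        ((B * (B - s ^ 2) : ℤ) : ℚ) := by push_cast; ring
    rw [h2]
    refine ((D_sq h).mono (by norm_num)).add (D.of_dvd ?_)
    rw [pow_one]
    rcases Int.even_or_odd B with h3 | h3
    · exact (h3.mul_right _).two_dvd
    · exact ((h3.sub_odd hs.pow).mul_left _).two_dvd
  have h4 : D 0 (c ^ 2 / (s : ℚ) ^ 2) := D_of_sub h1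
  have h16 : D 4 (16 : ℚ) := by
    have := D.pow 4
    norm_num at this
    exact this
  refine ⟨?_, ?_⟩
  · rw [mul_div_assoc]
    exact (h16.mul h4).mono (Nat.zero_le _)
  · have h5 : c + 16 * c ^ 2 / (s : ℚ) ^ 2 - ((17 * B : ℤ) : ℚ) =
        (c - B) + 16 * (c ^ 2 / (s : ℚ) ^ 2 - B) := by push_cast; ring
    rw [h5]
    exact h.add (h16.mul h1)

theorem L_two {c : ℚ} {B s : ℤ} (hs : Odd s) (h : D 5 (c - B)) :
    D 0 (16 * c ^ 2 / ((2 * s : ℤ) : ℚ) ^ 2) ∧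
      D 5 (c + 16 * c ^ 2 / ((2 * s : ℤ) : ℚ) ^ 2 - ((B + 4 * B ^ 2 : ℤ) : ℚ)) := by
  have hs0 : (s : ℚ) ≠ 0 := by
    have : s ≠ 0 := by rintro rfl; simp at hs
    exact_mod_cast this
  have h0 : 16 * c ^ 2 / ((2 * s : ℤ) : ℚ) ^ 2 = 4 * (c ^ 2 / (s : ℚ) ^ 2) := by
    push_cast
    field_simp
    ring
  have h1 : D 3 (c ^ 2 / (s : ℚ) ^ 2 - ((B ^ 2 : ℤ) : ℚ)) := by
    apply D_sq_odd hs
    have h2 : c ^ 2 - ((B ^ 2 : ℤ) : ℚ) * (s : ℚ) ^ 2 = (c ^ 2 - (B : ℚ) ^ 2) +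
        ((B ^ 2 * (1 - s ^ 2) : ℤ) : ℚ) := by push_cast; ring
    rw [h2]
    refine ((D_sq h).mono (by norm_num)).add (D.of_dvd ?_)
    apply Dvd.dvd.mul_left
    have h3 := Int.eight_dvd_sq_sub_one_of_odd hs
    have h4 : (1 : ℤ) - s ^ 2 = -(s ^ 2 - 1) := by ring
    have h5 : (2 : ℤ) ^ 3 = 8 := by norm_num
    rw [h4, h5]
    exact (dvd_neg).2 h3
  have h4 : D 0 (c ^ 2 / (s : ℚ) ^ 2) := D_of_sub h1
  have h16 : D 2 (4 : ℚ) := by
    have := D.pow 2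
    norm_num at this
    exact this
  refine ⟨?_, ?_⟩
  · rw [h0]
    exact (h16.mul h4).mono (Nat.zero_le _)
  · have h5 : c + 16 * c ^ 2 / ((2 * s : ℤ) : ℚ) ^ 2 - ((B + 4 * B ^ 2 : ℤ) : ℚ) =
        (c - B) + 4 * (c ^ 2 / (s : ℚ) ^ 2 - ((B ^ 2 : ℤ) : ℚ)) := by rw [h0]; push_cast; ring
    rw [h5]
    exact h.add (h16.mul h1)

theorem L_four {c : ℚ} {B s R : ℤ} (hs : Odd s) (hR : (2 : ℤ) ^ 5 ∣ 1 - R * s ^ 2)
    (h : D 5 (c - B)) : D 0 (16 * c ^ 2 / ((4 * s : ℤ) : ℚ) ^ 2) ∧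
      D 5 (c + 16 * c ^ 2 / ((4 * s : ℤ) : ℚ) ^ 2 - ((B + R * B ^ 2 : ℤ) : ℚ)) := by
  have hs0 : (s : ℚ) ≠ 0 := by
    have : s ≠ 0 := by rintro rfl; simp at hs
    exact_mod_cast this
  have h0 : 16 * c ^ 2 / ((4 * s : ℤ) : ℚ) ^ 2 = c ^ 2 / (s : ℚ) ^ 2 := by
    push_cast
    field_simp
    ring
  have h1 : D 5 (c ^ 2 / (s : ℚ) ^ 2 - ((R * B ^ 2 : ℤ) : ℚ)) := by
    apply D_sq_odd hs
    have h2 : c ^ 2 - ((R * B ^ 2 : ℤ) : ℚ) * (s : ℚ) ^ 2 = (c ^ 2 - (B : ℚ) ^ 2) +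
        ((B ^ 2 * (1 - R * s ^ 2) : ℤ) : ℚ) := by push_cast; ring
    rw [h2]
    exact (D_sq h).add (D.of_dvd (hR.mul_left _))
  refine ⟨?_, ?_⟩
  · rw [h0]
    exact D_of_sub h1
  · have h5 : c + 16 * c ^ 2 / ((4 * s : ℤ) : ℚ) ^ 2 - ((B + R * B ^ 2 : ℤ) : ℚ) =
        (c - B) + (c ^ 2 / (s : ℚ) ^ 2 - ((R * B ^ 2 : ℤ) : ℚ)) := by rw [h0]; push_cast; ring
    rw [h5]
    exact h.add h1

theorem L_eight {c : ℚ} {B s R : ℤ} (hs : Odd s) (hR : (2 : ℤ) ^ 5 ∣ 1 - R * s ^ 2)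
    (h : D 5 (c - ((2 * B : ℤ) : ℚ))) : D 0 (16 * c ^ 2 / ((8 * s : ℤ) : ℚ) ^ 2) ∧
      D 5 (c + 16 * c ^ 2 / ((8 * s : ℤ) : ℚ) ^ 2 - ((2 * B + R * B ^ 2 : ℤ) : ℚ)) := by
  have hs0 : (s : ℚ) ≠ 0 := by
    have : s ≠ 0 := by rintro rfl; simp at hs
    exact_mod_cast this
  have h0 : 16 * c ^ 2 / ((8 * s : ℤ) : ℚ) ^ 2 = (c / 2) ^ 2 / (s : ℚ) ^ 2 := by
    push_cast
    field_simp
    ring
  have hh : D 4 (c / 2 - B) := by
    obtain ⟨a, b, hb, h1⟩ := h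
    refine ⟨a, b, hb, ?_⟩
    push_cast at h1
    linear_combination h1 / 2
  have h1 : D 5 ((c / 2) ^ 2 / (s : ℚ) ^ 2 - ((R * B ^ 2 : ℤ) : ℚ)) := by
    apply D_sq_odd hs
    have h2 : (c / 2) ^ 2 - ((R * B ^ 2 : ℤ) : ℚ) * (s : ℚ) ^ 2 =
        (c / 2 - B) * ((c / 2 - B) + ((2 * B : ℤ) : ℚ)) +
        ((B ^ 2 * (1 - R * s ^ 2) : ℤ) : ℚ) := by push_cast; ring
    rw [h2]
    refine D.add ?_ (D.of_dvd (hR.mul_left _))
    have h3 : D 1 ((c / 2 - B) + ((2 * B : ℤ) : ℚ)) :=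
      (hh.mono (by norm_num)).add (D.of_dvd ⟨B, by ring⟩)
    exact hh.mul h3
  refine ⟨?_, ?_⟩
  · rw [h0]
    exact D_of_sub h1
  · have h5 : c + 16 * c ^ 2 / ((8 * s : ℤ) : ℚ) ^ 2 - ((2 * B + R * B ^ 2 : ℤ) : ℚ) =
        (c - ((2 * B : ℤ) : ℚ)) + ((c / 2) ^ 2 / (s : ℚ) ^ 2 - ((R * B ^ 2 : ℤ) : ℚ)) := by
      rw [h0]; push_cast; ring
    rw [h5]
    exact h.add h1

/-- the transition modulo 32 -/
def stepB (t B : ℕ) : ℕ :=
  if t % 2 = 1 then 17 * B % 32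
  else if t % 4 = 2 then (B + 4 * B ^ 2) % 32
  else if t = 20 then (B + 9 * B ^ 2) % 32
  else if t = 24 then (B + 25 * (B / 2) ^ 2) % 32
  else (B + 17 * B ^ 2) % 32

theorem D_mod {c : ℚ} {Z : ℤ} {B : ℕ} (h : D 5 (c - Z)) (hZ : Z % 32 = B) : D 5 (c - (B : ℤ)) := by
  have h1 : c - (((B : ℕ) : ℤ) : ℚ) = (c - Z) + ((Z - (B : ℤ) : ℤ) : ℚ) := by push_cast; ring
  rw [h1]
  refine h.add (D.of_dvd ?_)
  rw [← hZ]
  exact ⟨Z / 32, by have := Int.emod_add_mul_ediv Z 32; linarith⟩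

theorem step_cong (t B : ℕ) (ht : 17 ≤ t) (ht' : t < 32) (hB : t = 24 → B % 2 = 0) (c : ℚ)
    (h : D 5 (c - (B : ℤ))) : D 0 (16 * c ^ 2 / (t : ℚ) ^ 2) ∧
      D 5 (c + 16 * c ^ 2 / (t : ℚ) ^ 2 - (stepB t B : ℤ)) := by
  have hodd : ∀ s : ℤ, Odd s → (t : ℚ) = (s : ℚ) → t % 2 = 1 → D 0 (16 * c ^ 2 / (t : ℚ) ^ 2) ∧
      D 5 (c + 16 * c ^ 2 / (t : ℚ) ^ 2 - (stepB t B : ℤ)) := by
    intro s hs hts h2
    rw [hts]
    have h3 := L_odd hs h
    refine ⟨h3.1, D_mod h3.2 ?_⟩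
    unfold stepB
    rw [if_pos h2]
    push_cast
    rfl
  have htwo : ∀ s : ℤ, Odd s → (t : ℚ) = ((2 * s : ℤ) : ℚ) → t % 4 = 2 →
      D 0 (16 * c ^ 2 / (t : ℚ) ^ 2) ∧
      D 5 (c + 16 * c ^ 2 / (t : ℚ) ^ 2 - (stepB t B : ℤ)) := by
    intro s hs hts h2
    rw [hts]
    have h3 := L_two hs h
    refine ⟨h3.1, D_mod h3.2 ?_⟩
    unfold stepB
    rw [if_neg (by omega), if_pos h2]
    push_cast
    rfl
  have e1 : ∀ k : ℤ, Odd (2 * k + 1) := fun k => odd_two_mul_add_one k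
  interval_cases t
  · exact hodd 17 (e1 8) (by norm_num) (by norm_num)
  · exact htwo 9 (e1 4) (by norm_num) (by norm_num)
  · exact hodd 19 (e1 9) (by norm_num) (by norm_num)
  · have h3 := L_four (R := 9) (s := 5) (e1 2) (by norm_num) h
    have h4 : ((20 : ℕ) : ℚ) = ((4 * 5 : ℤ) : ℚ) := by norm_num
    rw [h4]
    refine ⟨h3.1, D_mod h3.2 ?_⟩
    simp [stepB]
  · exact hodd 21 (e1 10) (by norm_num) (by norm_num)
  · exact htwo 11 (e1 5) (by norm_num) (by norm_num)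
  · exact hodd 23 (e1 11) (by norm_num) (by norm_num)
  · have hB2 := hB rfl
    obtain ⟨b, rfl⟩ : ∃ b, B = 2 * b := ⟨B / 2, by omega⟩
    have h' : D 5 (c - ((2 * (b : ℤ) : ℤ) : ℚ)) := by
      have : (((2 * b : ℕ) : ℤ) : ℚ) = ((2 * (b : ℤ) : ℤ) : ℚ) := by push_cast; rfl
      rw [← this]; exact h
    have h3 := L_eight (R := 25) (s := 3) (e1 1) (by norm_num) h'
    have h4 : ((24 : ℕ) : ℚ) = ((8 * 3 : ℤ) : ℚ) := by norm_num
    rw [h4]
    refine ⟨h3.1, D_mod h3.2 ?_⟩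
    have h5 : 2 * b / 2 = b := by omega
    simp [stepB, h5]
  · exact hodd 25 (e1 12) (by norm_num) (by norm_num)
  · exact htwo 13 (e1 6) (by norm_num) (by norm_num)
  · exact hodd 27 (e1 13) (by norm_num) (by norm_num)
  · have h3 := L_four (R := 17) (s := 7) (e1 3) (by norm_num) h
    have h4 : ((28 : ℕ) : ℚ) = ((4 * 7 : ℤ) : ℚ) := by norm_num
    rw [h4]
    refine ⟨h3.1, D_mod h3.2 ?_⟩
    simp [stepB]
  · exact hodd 29 (e1 14) (by norm_num) (by norm_num)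
  · exact htwo 15 (e1 7) (by norm_num) (by norm_num)
  · exact hodd 31 (e1 15) (by norm_num) (by norm_num)

/-- the residues along one doubling -/
def Bs (U : ℕ) : ℕ → ℕ
  | 0 => (U ^ 2 + 4 * U) % 32
  | i + 1 => stepB (17 + i) (Bs U i)

theorem Bs_even : ∀ U < 32, U % 2 = 1 → Bs U 7 % 2 = 0 := by decide

theorem Bs_last : ∀ U < 32, U % 2 = 1 → Bs U 15 = 16 := by decide

include hx in
theorem doubling (κ : ℕ) (u : ℚ) (hu : Y x (2 ^ (κ + 8)) = 2 ^ (2 * κ + 14) * u) (hu1 : D 1 (u - 1)) :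
    (∀ n, 2 ^ (κ + 8) ≤ n → n < 2 ^ (κ + 9) → D 0 (x n)) ∧
    ∃ u' : ℚ, Y x (2 ^ (κ + 9)) = 2 ^ (2 * κ + 16) * u' ∧ D 1 (u' - 1) := by
  have hu0 : D 0 u := by
    have : u = (u - 1) + ((1 : ℤ) : ℚ) := by push_cast; ring
    rw [this]
    exact (hu1.mono (Nat.zero_le _)).add (D.int 1)
  -- the residue of `u`
  obtain ⟨z, hz⟩ := hu0.approx 5
  have hzodd : z % 2 = 1 := by
    have h1 : D 1 ((1 - z : ℤ) : ℚ) := by
      have : ((1 - z : ℤ) : ℚ) = (u - z) - (u - 1) := by push_cast; ring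
      rw [this]
      exact (hz.mono (by norm_num)).sub hu1
    have h2 := h1.dvd
    rw [pow_one] at h2
    omega
  set U : ℕ := (z % 32).toNat with hU
  have hUz : (U : ℤ) = z % 32 := Int.toNat_of_nonneg (Int.emod_nonneg _ (by norm_num))
  have hU32 : U < 32 := by have := Int.emod_lt_of_pos z (show (0 : ℤ) < 32 by norm_num); omega
  have hUodd : U % 2 = 1 := by omega
  have hUu : D 5 (u - (U : ℤ)) := D_mod hz hUz.symm
  -- the first segment
  have hN16 : 2 ^ (κ + 4) * 16 = 2 ^ (κ + 8) := by rw [show (16 : ℕ) = 2 ^ 4 by norm_num, ← pow_add]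
  have h4u : D 0 (4 * u) := by
    have := (D.int 4).mul hu0
    push_cast at this
    exact this
  have hfirst : 16 * (4 * u) ^ 2 / ((16 : ℕ) : ℚ) ^ 2 = u * u := by push_cast; ring
  have hseg := seg x hx κ 16 le_rfl (by norm_num) (4 * u) (by
    rw [hN16, hu]
    have h1 : (2 : ℚ) ^ (2 * κ + 14) = 2 ^ (2 * κ + 12) * 4 := by
      rw [show 2 * κ + 14 = 2 * κ + 12 + 2 by ring, pow_add]; norm_num
    rw [h1]; ring) h4u (by rw [hfirst]; exact hu0.mul hu0)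
  rw [hN16, hfirst] at hseg
  obtain ⟨hs1, c0, hc0, hc0'⟩ := hseg
  have hc0'' : D 5 (c0 - (Bs U 0 : ℤ)) := by
    have h1 : D 5 (c0 - (((U : ℤ) ^ 2 + 4 * U : ℤ) : ℚ)) := by
      have h2 : c0 - (((U : ℤ) ^ 2 + 4 * U : ℤ) : ℚ) = (c0 - (4 * u + u * u)) +
          (u - (U : ℤ)) * (((4 : ℤ) : ℚ) + u + (((U : ℕ) : ℤ) : ℚ)) := by push_cast; ring
      rw [h2]
      refine (hc0'.mono (by norm_num)).add ?_
      exact hUu.mul (((D.int 4).add hu0).add (D.int U))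
    apply D_mod h1
    unfold Bs
    push_cast
    rfl
  -- the other segments
  have hchain : ∀ i, i ≤ 15 → (∀ n, 2 ^ (κ + 8) ≤ n → n < 2 ^ (κ + 4) * (17 + i) → D 0 (x n)) ∧
      ∃ c : ℚ, Y x (2 ^ (κ + 4) * (17 + i)) = 2 ^ (2 * κ + 12) * c ∧ D 5 (c - (Bs U i : ℤ)) := by
    intro i
    induction i with
    | zero =>
      intro _
      exact ⟨hs1, c0, hc0, hc0''⟩
    | succ i ih =>
      intro hi
      obtain ⟨h1, c, h2, h3⟩ := ih (by omega)
      have h4 := step_cong (17 + i) (Bs U i) (by omega) (by omega) (by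
        intro h5
        have : i = 7 := by omega
        subst this
        exact Bs_even U hU32 hUodd) c h3
      obtain ⟨h5, c', h6, h7⟩ := seg x hx κ (17 + i) (by omega) (by omega) c h2
        (D_of_sub h3) h4.1
      refine ⟨fun n hn1 hn2 => ?_, c', ?_, ?_⟩
      · rcases Nat.lt_or_ge n (2 ^ (κ + 4) * (17 + i)) with h | h
        · exact h1 n hn1 h
        · exact h5 n h hn2
      · rw [← add_assoc]; exact h6
      · have h8 : c' - (((Bs U (i + 1) : ℕ) : ℤ) : ℚ) =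
            (c' - (c + 16 * c ^ 2 / ((17 + i : ℕ) : ℚ) ^ 2)) +
            (c + 16 * c ^ 2 / ((17 + i : ℕ) : ℚ) ^ 2 - (((stepB (17 + i) (Bs U i) : ℕ) : ℤ) : ℚ)) := by
          show c' - (((stepB (17 + i) (Bs U i) : ℕ) : ℤ) : ℚ) = _
          ring
        rw [h8]
        exact (h7.mono (by norm_num)).add h4.2
  obtain ⟨h1, c, h2, h3⟩ := hchain 15 le_rfl
  have hN32 : 2 ^ (κ + 4) * (17 + 15) = 2 ^ (κ + 9) := by
    rw [show (17 + 15 : ℕ) = 2 ^ 5 by norm_num, ← pow_add]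
  rw [hN32] at h1 h2
  refine ⟨h1, c / 16, ?_, ?_⟩
  · rw [h2, show 2 * κ + 16 = 2 * κ + 12 + 4 by ring, pow_add]
    norm_num
    ring
  · rw [Bs_last U hU32 hUodd] at h3
    obtain ⟨a, b, hb, h4⟩ := h3
    refine ⟨a, b, hb, ?_⟩
    push_cast at h4
    linear_combination h4 / 16

include h0 hx in
theorem all_integral (κ : ℕ) : (∀ n, 1 ≤ n → n < 2 ^ (κ + 8) → D 0 (x n)) ∧
    ∃ u : ℚ, Y x (2 ^ (κ + 8)) = 2 ^ (2 * κ + 14) * u ∧ D 1 (u - 1) := by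
  induction κ with
  | zero =>
    have hY1 : Y x 1 = 2 := by
      unfold Y
      rw [Finset.sum_range_one, h0]; norm_num
    have hlen : tab.length = 255 := by decide +kernel
    have h1 := chk_sound x hx tab 1 2 475136 le_rfl (by rw [hlen]; norm_num)
      (by rw [hY1]; push_cast; rw [sub_self]; exact D.zero 20) chk_tab
    rw [hlen] at h1
    refine ⟨fun n hn hn' => h1.1 n hn (by norm_num at hn' ⊢; exact hn'), ?_⟩
    obtain ⟨a, b, hb, h2⟩ := h1.2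
    refine ⟨Y x 256 / 2 ^ 14, ?_, ?_⟩
    · norm_num
      ring
    · refine ⟨32 * a + 14 * b, b, hb, ?_⟩
      norm_num at h2 ⊢
      linear_combination h2 / 16384
  | succ κ ih =>
    obtain ⟨h1, u, h2, h3⟩ := ih
    obtain ⟨h4, u', h5, h6⟩ := doubling x hx κ u h2 h3
    refine ⟨fun n hn hn' => ?_, u', ?_, h6⟩
    · rcases Nat.lt_or_ge n (2 ^ (κ + 8)) with h | h
      · exact h1 n hn h
      · exact h4 n h (by rw [show κ + 9 = κ + 1 + 8 by ring]; exact hn')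
    · rw [show κ + 1 + 8 = κ + 9 by ring, show 2 * (κ + 1) + 14 = 2 * κ + 16 by ring]
      exact h5

end

/-- Every term of the Lenstra sequence has an odd denominator. -/
theorem result : ∀ x : ℕ → ℚ, x 0 = 1 →
    (∀ n : ℕ, 1 ≤ n → x n = (1 + ∑ i ∈ Finset.range n, x i ^ 2) / n) →
    ∀ n : ℕ, Odd (x n).den := by
  intro x h0 hx n
  apply D.odd_den
  rcases Nat.eq_zero_or_pos n with h | h
  · rw [h, h0]
    exact D.int 1
  · refine (all_integral x h0 hx n).1 n h ?_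
    calc n < 2 ^ n := Nat.lt_two_pow_self
      _ ≤ 2 ^ (n + 8) := Nat.pow_le_pow_right (by norm_num) (by omega)

end Pool.Agent.Results.MP_d9e015_nt.TwoAdicIntegrality
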